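import Pool.Agent.Helper63.PG.Basic

/-! # Module N1M -/

set_option autoImplicit false

namespace Pool.Agent.Helper87.PG

open Pool.Agent.Helper63.PG

variable {V : Type*}

/-- a sequence `w = r 0, r 1, ..., r (n+1)` with `r i ∈ R` for `1 ≤ i`, whose last vertex sees a
vertex of the cycle in `T` -/
def Pth (G : SimpleGraph V) (R T : Set V) (c : ℕ → V) (L : ℕ) (w : V) (r : ℕ → V) (n : ℕ) : Prop :=
  r 0 = w ∧ (∀ i, 1 ≤ i → i ≤ n + 1 → r i ∈ R) ∧ (∀ i, i < n + 1 → G.Adj (r i) (r (i + 1))) ∧
    ∃ i, i < L ∧ c i ∈ T ∧ G.Adj (r (n + 1)) (c i)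

theorem exists_Pth {G : SimpleGraph V} {R T U : Set V} (h : Lay G R T U) {c : ℕ → V} {L : ℕ}
    (hT : ∃ i < L, c i ∈ T) {w : V} (hw : w ∈ T) : ∃ n, ∃ r, Pth G R T c L w r n := by
  obtain ⟨i, hi, hci⟩ := hT
  obtain ⟨a, ha, hwa⟩ := h.tR w hw
  obtain ⟨b, hb, hcb⟩ := h.tR (c i) hci
  obtain ⟨n, q, q0, qn, qR, qA⟩ := h.conn a ha b hb
  refine ⟨n, fun k => if k = 0 then w else q (k - 1), ?_, ?_, ?_, i, hi, hci, ?_⟩
  · simp
  · intro k h1 h2
    simp only [if_neg (by omega : ¬ k = 0)]
    exact qR _ (by omega)
  · intro k hk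
    by_cases h0 : k = 0
    · subst h0
      simp only [if_true, zero_add, one_ne_zero, if_false, Nat.sub_self]
      rw [q0]; exact hwa
    · simp only [if_neg h0, if_neg (by omega : ¬ k + 1 = 0)]
      have e : k + 1 - 1 = (k - 1) + 1 := by omega
      rw [e]
      exact qA _ (by omega)
  · simp only [if_neg (by omega : ¬ n + 1 = 0), Nat.add_sub_cancel]
    rw [qn]
    exact hcb.symm

/-- the core, with the two neighbours of `w` at the ends of the sequence -/
theorem core {G : SimpleGraph V} {R T U : Set V} (h : Lay G R T U) {c : ℕ → V} {L : ℕ}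
    (hL : 4 ≤ L) (hc : Hol G c L) (hUT : ∀ i < L, c i ∈ U ∨ c i ∈ T) (hT : ∃ i < L, c i ∈ T)
    {w : V} (hw : w ∈ T) (hws : ∀ i < L, (G.Adj w (c i) ↔ i = 0 ∨ i + 1 = L)) : False := by
  classical
  -- a shortest path
  have hex := exists_Pth h hT hw
  obtain ⟨n, ⟨r, hr⟩, hmin⟩ : ∃ n, (∃ r, Pth G R T c L w r n) ∧
      ∀ k < n, ¬ ∃ r, Pth G R T c L w r k :=
    ⟨Nat.find hex, Nat.find_spec hex, fun k hk => Nat.find_min hex hk⟩
  obtain ⟨r0, rR, rA, rE⟩ := hr
  -- no neighbours before the end
  have hA : ∀ k, 1 ≤ k → k < n + 1 → ∀ j < L, ¬ G.Adj (r k) (c j) := by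
    intro k h1 h2 j hj hadj
    rcases hUT j hj with hU | hTj
    · exact h.anti _ hU _ (rR k h1 (by omega)) hadj.symm
    · refine hmin (k - 1) (by omega) ⟨r, r0, ?_, ?_, j, hj, hTj, ?_⟩
      · intro i hi1 hi2
        exact rR i hi1 (by omega)
      · intro i hi
        exact rA i (by omega)
      · rw [show k - 1 + 1 = k by omega]
        exact hadj
  -- the last vertex sees only vertices of `T`
  have hB : ∀ j < L, G.Adj (r (n + 1)) (c j) → c j ∈ T := by
    intro j hj hadj
    rcases hUT j hj with hU | hTj
    · exact absurd hadj.symm (h.anti _ hU _ (rR (n + 1) (by omega) le_rfl))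
    · exact hTj
  -- the path is induced
  have hD : ∀ i j, i < j → j ≤ n + 1 → (G.Adj (r i) (r j) ↔ j = i + 1) := by
    intro i j hij hj
    constructor
    · intro hadj
      by_contra hne
      refine hmin (n - (j - i - 1)) (by omega)
        ⟨fun k => if k ≤ i then r k else r (k + (j - i - 1)), ?_, ?_, ?_, ?_⟩
      · simp only [Nat.zero_le, if_true]
        exact r0
      · intro k h1 h2
        by_cases hk : k ≤ i
        · simp only [if_pos hk]
          exact rR k h1 (by omega)
        · simp only [if_neg hk]
          exact rR _ (by omega) (by omega)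
      · intro k hk
        by_cases h1 : k + 1 ≤ i
        · simp only [if_pos h1, if_pos (by omega : k ≤ i)]
          exact rA k (by omega)
        · by_cases h2 : k ≤ i
          · have hki : k = i := by omega
            subst hki
            simp only [if_neg h1, if_pos h2]
            have e : k + 1 + (j - k - 1) = j := by omega
            rw [e]
            exact hadj
          · simp only [if_neg h1, if_neg h2]
            have e : k + 1 + (j - i - 1) = (k + (j - i - 1)) + 1 := by omega
            rw [e]
            exact rA _ (by omega)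
      · simp only [if_neg (by omega : ¬ n - (j - i - 1) + 1 ≤ i)]
        have e : n - (j - i - 1) + 1 + (j - i - 1) = n + 1 := by omega
        rw [e]
        exact rE
    · intro e
      rw [e]
      exact rA i (by omega)
  have hIP : IP G (fun k => r (k + 1)) n := by
    intro i j hij hj
    show G.Adj (r (i + 1)) (r (j + 1)) ↔ _
    rw [hD _ _ (by omega) (by omega)]
    omega
  have hw1 : ∀ k ≤ n, (G.Adj w (r (k + 1)) ↔ k = 0) := by
    intro k hk
    rw [← r0, hD 0 (k + 1) (by omega) (by omega)]
    omega
  -- first and last neighbour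
  obtain ⟨i, hiL, hia, hifirst⟩ : ∃ i, i < L ∧ G.Adj (r (n + 1)) (c i) ∧
      ∀ k < i, ¬ G.Adj (r (n + 1)) (c k) := by
    have hex2 : ∃ i, i < L ∧ G.Adj (r (n + 1)) (c i) := by
      obtain ⟨i, h1, _, h2⟩ := rE
      exact ⟨i, h1, h2⟩
    refine ⟨Nat.find hex2, (Nat.find_spec hex2).1, (Nat.find_spec hex2).2, fun k hk hadj => ?_⟩
    exact Nat.find_min hex2 hk ⟨by have := (Nat.find_spec hex2).1; omega, hadj⟩
  obtain ⟨j, hjL, hja, hjlast⟩ : ∃ j, j < L ∧ G.Adj (r (n + 1)) (c j) ∧
      ∀ k, j < k → k < L → ¬ G.Adj (r (n + 1)) (c k) := by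
    have hex2 : ∃ d, d < L ∧ G.Adj (r (n + 1)) (c (L - 1 - d)) := by
      refine ⟨L - 1 - i, by omega, ?_⟩
      rw [show L - 1 - (L - 1 - i) = i by omega]
      exact hia
    refine ⟨L - 1 - Nat.find hex2, by omega, (Nat.find_spec hex2).2, fun k h1 h2 hadj => ?_⟩
    have h3 := (Nat.find_spec hex2).1
    refine Nat.find_min hex2 (m := L - 1 - k) (by omega) ⟨by omega, ?_⟩
    rw [show L - 1 - (L - 1 - k) = k by omega]
    exact hadj
  have hij : i ≤ j := by
    by_contra hlt
    exact hifirst j (by omega) hja
  have hiT : c i ∈ T := hB i hiL hia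
  have hjT : c j ∈ T := hB j hjL hja
  have hi1 : 1 ≤ i := by
    by_contra h0
    have h0' : i = 0 := by omega
    exact h.stab w hw (c i) hiT ((hws i hiL).mpr (Or.inl h0'))
  have hj1 : j + 1 < L := by
    by_contra h0
    have h0' : j + 1 = L := by omega
    exact h.stab w hw (c j) hjT ((hws j hjL).mpr (Or.inr h0'))
  -- first parity
  have e1 : Even (n + i + 1) := by
    have hg : IP G (fun k => c (i - k)) i := by
      intro a b hab hb
      show G.Adj (c (i - a)) (c (i - b)) ↔ _
      rw [G.adj_comm, hc _ _ (by omega) (by omega)]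
      omega
    have hf := IP.cat hIP hg (by
      intro a ha b hb
      show G.Adj (r (a + 1)) (c (i - b)) ↔ _
      constructor
      · intro hadj
        by_cases han : a = n
        · refine ⟨han, ?_⟩
          by_contra hb0
          rw [han] at hadj
          exact hifirst (i - b) (by omega) hadj
        · exact absurd hadj (hA (a + 1) (by omega) (by omega) (i - b) (by omega))
      · rintro ⟨rfl, rfl⟩
        exact hia)
    refine h.noh.apex hf (by omega) (w := w) ?_
    intro k hk
    rcases Nat.lt_or_ge n k with hk' | hk'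
    · rw [cat_gt hk', hws _ (by omega)]
      omega
    · rw [cat_le hk', hw1 k hk']
      omega
  -- second parity
  have e2 : Even (n + (L - 1 - j) + 1) := by
    have hg : IP G (fun k => c (j + k)) (L - 1 - j) := by
      intro a b hab hb
      show G.Adj (c (j + a)) (c (j + b)) ↔ _
      rw [hc _ _ (by omega) (by omega)]
      omega
    have hf := IP.cat hIP hg (by
      intro a ha b hb
      show G.Adj (r (a + 1)) (c (j + b)) ↔ _
      constructor
      · intro hadj
        by_cases han : a = n
        · refine ⟨han, ?_⟩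
          by_contra hb0
          rw [han] at hadj
          exact hjlast (j + b) (by omega) (by omega) hadj
        · exact absurd hadj (hA (a + 1) (by omega) (by omega) (j + b) (by omega))
      · rintro ⟨rfl, rfl⟩
        exact hja)
    refine h.noh.apex hf (by omega) (w := w) ?_
    intro k hk
    rcases Nat.lt_or_ge n k with hk' | hk'
    · rw [cat_gt hk', hws _ (by omega)]
      omega
    · rw [cat_le hk', hw1 k hk']
      omega
  rw [Nat.even_iff] at e1 e2
  rcases Nat.lt_or_ge i j with hlt | hge
  · -- `i < j`
    have hij2 : i + 1 < j := by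
      by_contra hcon
      have : j = i + 1 := by omega
      subst this
      exact h.stab _ hiT _ hjT ((hc i (i + 1) (by omega) hjL).mpr (Or.inl rfl))
    have hf := Hol.around hc hij2 hjL
    have e3 : Even (i + (L - 1 - j) + 1) := by
      refine h.noh.apex hf (by omega) (w := r (n + 1)) ?_
      intro k hk
      rcases Nat.lt_or_ge i k with hk' | hk'
      · rw [cat_gt hk']
        constructor
        · intro hadj
          right
          by_contra hne
          exact hjlast _ (by omega) (by omega) hadj
        · intro hor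
          have e : L - 1 - (k - i - 1) = j := by omega
          rw [e]
          exact hja
      · rw [cat_le hk']
        constructor
        · intro hadj
          left
          by_contra hne
          exact hifirst (i - k) (by omega) hadj
        · intro hor
          have e : i - k = i := by omega
          rw [e]
          exact hia
    rw [Nat.even_iff] at e3
    omega
  · have hije : i = j := le_antisymm hij hge
    have e4 := h.noh.even hc hL
    rw [Nat.even_iff] at e4
    omega

theorem hN1M {G : SimpleGraph V} {R T U : Set V} (h : Lay G R T U) : N1 G T U := by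
  intro c L hL hc hUT hT w hw p hp hws
  refine core h hL (Hol.rot hc hp (by omega)) ?_ ?_ hw ?_
  · intro i hi
    show c _ ∈ U ∨ c _ ∈ T
    apply hUT
    split_ifs <;> omega
  · obtain ⟨i, hi, hci⟩ := hT
    by_cases h1 : p + 1 ≤ i
    · refine ⟨i - (p + 1), by omega, ?_⟩
      show c (if i - (p + 1) + (p + 1) < L then i - (p + 1) + (p + 1)
        else i - (p + 1) + (p + 1) - L) ∈ T
      rw [if_pos (by omega), Nat.sub_add_cancel h1]
      exact hci
    · refine ⟨i + L - (p + 1), by omega, ?_⟩
      show c (if i + L - (p + 1) + (p + 1) < L then i + L - (p + 1) + (p + 1)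
        else i + L - (p + 1) + (p + 1) - L) ∈ T
      rw [if_neg (by omega)]
      have e : i + L - (p + 1) + (p + 1) - L = i := by omega
      rw [e]
      exact hci
  · intro i hi
    show G.Adj w (c (if i + (p + 1) < L then i + (p + 1) else i + (p + 1) - L)) ↔ _
    rw [hws _ (by split_ifs <;> omega)]
    split_ifs <;> omega

end Pool.Agent.Helper87.PG
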